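import Pool.Agent.ASO.StmtsL

/-!
# ASO, LT1: the sum for one element `e`
-/

open scoped BigOperators

noncomputable section

namespace Pool.Agent.PP.SO.H56

open Pool.Agent.PP.SO

theorem sum_inv_comp {ℓ : ℕ} [Fact ℓ.Prime] (f : ZMod ℓ → ZMod ℓ) :
    ∑ s : ZMod ℓ, f s⁻¹ = ∑ s : ZMod ℓ, f s :=
  Function.Bijective.sum_comp (inv_involutive.bijective) f

theorem sum_id {ℓ : ℕ} [Fact ℓ.Prime] (h2 : ℓ ≠ 2) : ∑ s : ZMod ℓ, s = 0 := by
  have h1 : 1 < Fintype.card (ZMod ℓ) - 1 := by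
    rw [ZMod.card]
    have := (Fact.out : ℓ.Prime).two_le
    omega
  have := FiniteField.sum_pow_lt_card_sub_one (ZMod ℓ) 1 h1
  simpa using this

theorem sum_ne {ℓ : ℕ} [Fact ℓ.Prime] (f : ZMod ℓ → ZMod ℓ) :
    ∑ s : ZMod ℓ, s⁻¹ * s * f s = ∑ s : ZMod ℓ, f s - f 0 := by
  classical
  have h1 : ∀ s : ZMod ℓ, s⁻¹ * s * f s = f s - (if s = 0 then f 0 else 0) := by
    intro s
    by_cases hs : s = 0
    · rw [hs]
      simp
    · rw [inv_mul_cancel₀ hs, if_neg hs, one_mul, sub_zero]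
  rw [Finset.sum_congr rfl fun s _ => h1 s, Finset.sum_sub_distrib, Finset.sum_ite_eq']
  simp

theorem lt1 (lsm : LSmStmt) : LT1Stmt := by
  intro ℓ _ V Γ _ _ _ _ _ ρ F f₀ h hF hH e c d hc hd φ ψ
  obtain ⟨d', hd'⟩ : ∃ d', d' = ρ e d := ⟨_, rfl⟩
  obtain ⟨c', hc'⟩ : ∃ c', c' = ρ e⁻¹ c := ⟨_, rfl⟩
  have hρ : ∀ v, ρ e (ρ e⁻¹ v) = v := by
    intro v
    rw [← Module.End.mul_apply, ← map_mul, mul_inv_cancel, map_one, Module.End.one_apply]
  have hρ' : ∀ v, ρ e⁻¹ (ρ e v) = v := by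
    intro v
    rw [← Module.End.mul_apply, ← map_mul, inv_mul_cancel, map_one, Module.End.one_apply]
  have e1 : ρ e c' = c := by rw [hc', hρ]
  have e2 : ρ e⁻¹ d' = d := by rw [hd', hρ']
  have hFc : F c' = F c := by rw [hc', hF.fe]
  have hFd : F d' = F d := by rw [hd', hF.fe]
  rw [← hd', ← hc']
  have hG : ∀ s : ZMod ℓ, F (c + s • d') = F (c' + s • d) := by
    intro s
    rw [← hF.fe e⁻¹ (c + s • d'), map_add, map_smul, e2, ← hc']
  have hlhs : ∑ s : ZMod ℓ, s⁻¹ * (F (c + s • d') * (φ (c + s • d') * ψ (c' + s • d))) =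
      (∑ s : ZMod ℓ, s⁻¹ * F (c + s • d')) * (φ c * ψ c') +
      (∑ s : ZMod ℓ, s⁻¹ * s * F (c + s • d')) * (φ d' * ψ c' + φ c * ψ d) +
      (∑ s : ZMod ℓ, s * F (c + s • d')) * (φ d' * ψ d) := by
    rw [Finset.sum_mul, Finset.sum_mul, Finset.sum_mul, ← Finset.sum_add_distrib,
      ← Finset.sum_add_distrib]
    refine Finset.sum_congr rfl fun s _ => ?_
    rw [map_add, map_add, map_smul, map_smul, smul_eq_mul, smul_eq_mul]
    by_cases hs : s = 0
    · rw [hs]
      simp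
    · have h1 : s⁻¹ * s = 1 := inv_mul_cancel₀ hs
      linear_combination (s * F (c + s • d') * φ d' * ψ d) * h1
  have hd'0 : d' ≠ 0 := by
    intro h0
    apply hd
    rw [← e2, h0, map_zero]
  by_cases hcase : ∀ a : ZMod ℓ, d' ≠ a • c
  · -- first case
    have hinv : ∀ s : ZMod ℓ, s ≠ 0 → F (c + s • d') = F (d' + s⁻¹ • c) := by
      intro s hs
      rw [← hF.fs s⁻¹ (c + s • d') (inv_ne_zero hs), smul_add, smul_smul, inv_mul_cancel₀ hs,
        one_smul, add_comm]
    have hA : ∑ s : ZMod ℓ, s⁻¹ * F (c + s • d') = h c d' := by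
      rw [(hH c hc).2 d' hcase, ← sum_inv_comp (fun s => s * F (d' + s • c))]
      refine Finset.sum_congr rfl fun s _ => ?_
      by_cases hs : s = 0
      · rw [hs, inv_zero, zero_mul, zero_mul]
      · rw [hinv s hs]
    have hB : ∑ s : ZMod ℓ, s⁻¹ * s * F (c + s • d') = f₀ - F c - F d := by
      have h1 : ∑ s : ZMod ℓ, s⁻¹ * s * F (c + s • d') =
          ∑ s : ZMod ℓ, s⁻¹ * s * F (d' + s⁻¹ • c) := by
        refine Finset.sum_congr rfl fun s _ => ?_
        by_cases hs : s = 0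
        · rw [hs, inv_zero, zero_mul, zero_mul, zero_mul]
        · rw [hinv s hs]
      have h2 := sum_inv_comp (ℓ := ℓ) (fun s => s⁻¹ * s * F (d' + s • c))
      have h3 : ∑ s : ZMod ℓ, s⁻¹ * s * F (d' + s⁻¹ • c) =
          ∑ s : ZMod ℓ, s⁻¹ * s * F (d' + s • c) := by
        rw [← h2]
        refine Finset.sum_congr rfl fun s _ => ?_
        rw [inv_inv, mul_comm s s⁻¹]
      rw [h1, h3, sum_ne (fun s => F (d' + s • c)), lsm ℓ V Γ ρ F f₀ hF c d' hc hcase, zero_smul,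
        add_zero, hFd]
    have hC : ∑ s : ZMod ℓ, s * F (c + s • d') = h d c' := by
      have h1 : ∀ a : ZMod ℓ, c' ≠ a • d := by
        intro a ha
        have h2 : c = a • d' := by rw [← e1, ha, map_smul, ← hd']
        have ha0 : a ≠ 0 := by
          rintro rfl
          rw [zero_smul] at h2
          exact hc h2
        refine hcase a⁻¹ ?_
        rw [h2, smul_smul, inv_mul_cancel₀ ha0, one_smul]
      rw [(hH d hd).2 c' h1]
      refine Finset.sum_congr rfl fun s _ => ?_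
      rw [hG]
    rw [hlhs, hA, hB, hC]
    ring
  · -- second case
    push Not at hcase
    obtain ⟨j, hj⟩ := hcase
    have hj0 : j ≠ 0 := by
      rintro rfl
      rw [zero_smul] at hj
      exact hd'0 hj
    have hdj : d = j • c' := by rw [← e2, hj, map_smul, ← hc']
    have hFdc : F d = F c := by rw [← hFd, hj, hF.fs j c hj0]
    have hterm : ∀ s : ZMod ℓ, s⁻¹ * (F (c + s • d') * (φ (c + s • d') * ψ (c' + s • d))) =
        F c * (φ c * ψ c') * (s⁻¹ + 2 * j * (s⁻¹ * s) + j ^ 2 * s) := by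
      intro s
      have h1 : c + s • d' = (1 + s * j) • c := by
        rw [hj, smul_smul, add_smul, one_smul]
      have h2 : c' + s • d = (1 + s * j) • c' := by
        rw [hdj, smul_smul, add_smul, one_smul]
      rw [h1, h2, map_smul, map_smul, smul_eq_mul, smul_eq_mul]
      have h3 : F ((1 + s * j) • c) * (1 + s * j) = F c * (1 + s * j) := by
        by_cases h0 : 1 + s * j = 0
        · rw [h0, mul_zero, mul_zero]
        · rw [hF.fs _ c h0]
      by_cases hs : s = 0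
      · rw [hs]
        simp
      · have h4 : s⁻¹ * s = 1 := inv_mul_cancel₀ hs
        have h5 : s⁻¹ * (F ((1 + s * j) • c) * ((1 + s * j) * φ c * ((1 + s * j) * ψ c'))) =
            (F ((1 + s * j) • c) * (1 + s * j)) * (s⁻¹ * (1 + s * j) * (φ c * ψ c')) := by ring
        rw [h5, h3]
        linear_combination (F c * (φ c * ψ c') * j ^ 2 * s) * h4
    rw [Finset.sum_congr rfl fun s _ => hterm s, ← Finset.mul_sum, Finset.sum_add_distrib,
      Finset.sum_add_distrib, ← Finset.mul_sum, ← Finset.mul_sum]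
    have s1 : ∑ s : ZMod ℓ, s⁻¹ = 0 := by
      rw [sum_inv_comp (fun s : ZMod ℓ => s), sum_id hF.od]
    have s2 : ∑ s : ZMod ℓ, s⁻¹ * s = -1 := by
      have h1 := sum_ne (ℓ := ℓ) (fun _ => 1)
      simp only [mul_one] at h1
      rw [h1]
      simp
    rw [s1, s2, sum_id hF.od]
    have r1 : h c d' = j * (F c - f₀) := by
      rw [hj, map_smul, (hH c hc).1, smul_eq_mul]
    have r2 : h d c' = j⁻¹ * (F c - f₀) := by
      have h1 : c' = j⁻¹ • d := by rw [hdj, smul_smul, inv_mul_cancel₀ hj0, one_smul]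
      rw [h1, map_smul, (hH d hd).1, smul_eq_mul, hFdc]
    have r3 : φ d' = j * φ c := by rw [hj, map_smul, smul_eq_mul]
    have r4 : ψ d = j * ψ c' := by rw [hdj, map_smul, smul_eq_mul]
    have h4 : j⁻¹ * j = 1 := inv_mul_cancel₀ hj0
    rw [r1, r2, r3, r4, hFdc]
    linear_combination (-(F c - f₀) * φ c * j * ψ c') * h4

end Pool.Agent.PP.SO.H56
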